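import Pool.Agent.N554.HVZ.Def

/-!
# The words `w_m` (HV/WM)
-/

set_option autoImplicit false

namespace Pool.Agent.N271.HVZ

open Pool.Agent.N554.HKS (ext seg Lang)
open Pool.Agent.N554.HVZ

lemma seg_length {A : Type*} (u : ℕ → A) (i n : ℕ) : (seg u i n).length = n := by
  simp [seg]

lemma ext_append {A B : Type*} (f : A → List B) (x y : List A) :
    ext f (x ++ y) = ext f x ++ ext f y := by
  simp [ext]

lemma ext_cons {A B : Type*} (f : A → List B) (x : A) (y : List A) :
    ext f (x :: y) = f x ++ ext f y := by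
  simp [ext]

lemma seg_succ {A : Type*} (u : ℕ → A) (n : ℕ) : seg u 0 (n + 1) = seg u 0 n ++ [u n] := by
  simp [seg, List.range_succ]

lemma d0_zero : d0 0 = 0 := by rw [d0]

lemma d0_four (q r : ℕ) (hr : r < 4) : d0 (4 * q + r) = (phi0 (d0 q)).getD r 0 := by
  rcases Nat.eq_zero_or_pos (4 * q + r) with h0 | hpos
  · have hq : q = 0 := by omega
    have hr0 : r = 0 := by omega
    subst hq hr0
    rw [Nat.mul_zero, Nat.add_zero, d0_zero]
    rfl
  · obtain ⟨n, hn⟩ : ∃ n, 4 * q + r = n + 1 := ⟨4 * q + r - 1, by omega⟩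
    have h1 : (n + 1) % 4 = r := by omega
    have h2 : (n + 1) / 4 = q := by omega
    rw [hn, d0, h1, h2]
    obtain ⟨x, hx⟩ : ∃ x, x = d0 q := ⟨_, rfl⟩
    rw [← hx]
    interval_cases r <;> fin_cases x <;> rfl

lemma seg_phi (n : ℕ) : seg d0 0 (4 * n) = ext phi0 (seg d0 0 n) := by
  induction n with
  | zero => rfl
  | succ n ih =>
    rw [seg_succ, ext_append, ← ih, ext_cons, show 4 * (n + 1) = 4 * n + 1 + 1 + 1 + 1 by ring,
      seg_succ, seg_succ, seg_succ, seg_succ]
    have e0 := d0_four n 0 (by norm_num)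
    have e1 := d0_four n 1 (by norm_num)
    have e2 := d0_four n 2 (by norm_num)
    have e3 := d0_four n 3 (by norm_num)
    rw [Nat.add_zero] at e0
    rw [e0, e1, show 4 * n + 1 + 1 = 4 * n + 2 by ring, e2, show 4 * n + 2 + 1 = 4 * n + 3 by ring, e3]
    obtain ⟨x, hx⟩ : ∃ x, x = d0 n := ⟨_, rfl⟩
    rw [← hx]
    simp only [List.append_assoc]
    congr 1
    fin_cases x <;> rfl

lemma u0_three (q r : ℕ) (hr : r < 3) : u0 (3 * q + r) = (mu0 (d0 q)).getD r 0 := by
  unfold u0
  have h1 : (3 * q + r) % 3 = r := by omega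
  have h2 : (3 * q + r) / 3 = q := by omega
  rw [h1, h2]

lemma seg_mu (n : ℕ) : seg u0 0 (3 * n) = ext mu0 (seg d0 0 n) := by
  induction n with
  | zero => rfl
  | succ n ih =>
    rw [seg_succ, ext_append, ← ih, ext_cons, show 3 * (n + 1) = 3 * n + 1 + 1 + 1 by ring,
      seg_succ, seg_succ, seg_succ]
    have e0 := u0_three n 0 (by norm_num)
    have e1 := u0_three n 1 (by norm_num)
    have e2 := u0_three n 2 (by norm_num)
    rw [Nat.add_zero] at e0
    rw [e0, e1, show 3 * n + 1 + 1 = 3 * n + 2 by ring, e2]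
    obtain ⟨x, hx⟩ : ∃ x, x = d0 n := ⟨_, rfl⟩
    rw [← hx]
    simp only [List.append_assoc]
    congr 1
    fin_cases x <;> rfl

lemma iter_seg (m : ℕ) : (ext phi0)^[m] [0] = seg d0 0 (4 ^ m) := by
  induction m with
  | zero =>
    simp [seg, d0_zero]
  | succ m ih =>
    rw [Function.iterate_succ_apply', ih, ← seg_phi, pow_succ, mul_comm]

/-- number of `0` minus number of `1` -/
def df (s : List (Fin 2)) : ℤ := (s.count 0 : ℤ) - s.count 1

lemma df_cons (x : Fin 2) (s : List (Fin 2)) : df (x :: s) = (if x = 0 then 1 else -1) + df s := by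
  unfold df
  rw [List.count_cons, List.count_cons]
  fin_cases x <;> simp <;> ring

lemma df_phi (s : List (Fin 2)) : df (ext phi0 s) = 2 * df s := by
  induction s with
  | nil => rfl
  | cons x s ih =>
    rw [ext_cons, df_cons]
    fin_cases x
    · show df (0 :: 0 :: 0 :: 1 :: ext phi0 s) = _
      simp only [df_cons, ih]
      simp
      ring
    · show df (0 :: 1 :: 1 :: 1 :: ext phi0 s) = _
      simp only [df_cons, ih]
      simp
      ring

/-- the first letter of the image is not `1` -/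
lemma head_mu (s : List (Fin 2)) : ext mu0 s = [] ∨ ∃ t, ext mu0 s = 0 :: t ∨ ext mu0 s = 2 :: t := by
  cases s with
  | nil => left; rfl
  | cons x s =>
    right
    rw [ext_cons]
    fin_cases x
    · exact ⟨1 :: 2 :: ext mu0 s, Or.inl rfl⟩
    · exact ⟨1 :: 0 :: ext mu0 s, Or.inr rfl⟩

lemma N_two (s : List (Fin 2)) : N (2 :: ext mu0 s) = N (ext mu0 s) := by
  rcases head_mu s with h | ⟨t, h | h⟩
  · rw [h]; rfl
  · rw [h, N]; simp [g]
  · rw [h, N]; simp [g]

lemma N_zero (s : List (Fin 2)) : N (0 :: ext mu0 s) = N (ext mu0 s) := by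
  rcases head_mu s with h | ⟨t, h | h⟩
  · rw [h]; rfl
  · rw [h, N]; simp [g]
  · rw [h, N]; simp [g]

lemma N_mu (s : List (Fin 2)) : N (ext mu0 s) = df s := by
  induction s with
  | nil => rfl
  | cons x s ih =>
    rw [ext_cons, df_cons]
    fin_cases x
    · show N (0 :: 1 :: 2 :: ext mu0 s) = _
      rw [N, N, N_two, ih]
      simp [g]
    · show N (2 :: 1 :: 0 :: ext mu0 s) = _
      rw [N, N, N_zero, ih]
      simp [g]

lemma df_iter (m : ℕ) : df ((ext phi0)^[m] [0]) = 2 ^ m := by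
  induction m with
  | zero => rfl
  | succ m ih =>
    rw [Function.iterate_succ_apply', df_phi, ih, pow_succ]
    ring

theorem WM_proof : WM := by
  intro m
  have h1 : W m = seg u0 0 (3 * 4 ^ m) := by
    unfold W F
    rw [iter_seg, seg_mu]
  have h2 : (W m).length = 3 * 4 ^ m := by rw [h1, seg_length]
  refine ⟨⟨0, ?_⟩, h2, ?_⟩
  · rw [h2, h1]
  · unfold W F
    rw [N_mu, df_iter]

end Pool.Agent.N271.HVZ
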